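import Pool.Agent.N783.CF.Stm

/-!
Project CF (helper783): a transposition in the Galois group (helper693).
-/

set_option autoImplicit false
set_option linter.all false

open Polynomial NumberField Matrix
open scoped Classical

namespace Pool.Agent.N693.CF

open Pool.Agent.N352.PJ (dd)
open Pool.Agent.N783.PF (Bd Ht dsc fF SqF IsGen Fam GoodS GoodF LBad Cg sp rd)
open Pool.Agent.N783.CF

/-- the resultant of a split monic polynomial and its derivative is a square up to sign -/
lemma res_sq {R : Type} [CommRing R] [IsDomain R] (n : ℕ) (α : Fin (n + 1) → R) :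
    ∃ x : R, x ^ 2 = (∏ i, (X - C (α i))).resultant (derivative (∏ i, (X - C (α i)))) (n + 1) n ∨
      x ^ 2 = -(∏ i, (X - C (α i))).resultant (derivative (∏ i, (X - C (α i)))) (n + 1) n := by
  obtain ⟨p, hp⟩ : ∃ p : R[X], p = ∏ i, (X - C (α i)) := ⟨_, rfl⟩
  have hmon : p.Monic := by rw [hp]; exact monic_prod_of_monic _ _ fun i _ => monic_X_sub_C _
  have hdeg : p.natDegree = n + 1 := by
    rw [hp, natDegree_prod_of_monic _ _ fun i _ => monic_X_sub_C _]
    simp
  have hroots : p.roots = Finset.univ.val.map α := by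
    have e : p = ((Finset.univ.val.map α).map fun a => X - C a).prod := by
      rw [hp, Multiset.map_map]; rfl
    rw [e, roots_multiset_prod_X_sub_C]
  have hsp : p.Splits := by
    rw [hp]
    exact Splits.prod fun i _ => Splits.X_sub_C _
  have hder : (derivative p).natDegree ≤ n := by
    have := natDegree_derivative_le p
    omega
  have h1 := resultant_eq_prod_eval p (derivative p) n hder hsp
  rw [hdeg, hmon.leadingCoeff, one_pow, one_mul, hroots, Multiset.map_map] at h1
  have h2 : p.resultant (derivative p) (n + 1) n = ∏ i, (derivative p).eval (α i) := h1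
  have h3 : ∀ i, (derivative p).eval (α i) = ∏ j ∈ ({i} : Finset (Fin (n + 1)))ᶜ, (α i - α j) := by
    intro i
    have e : p = (X - C (α i)) * ∏ j ∈ ({i} : Finset (Fin (n + 1)))ᶜ, (X - C (α j)) := by
      rw [hp, ← Finset.mul_prod_erase Finset.univ _ (Finset.mem_univ i),
        Finset.compl_singleton]
    rw [e, derivative_mul]
    simp [eval_prod]
  have h4 : p.resultant (derivative p) (n + 1) n =
      ∏ i, ∏ j ∈ Finset.Ioi i, ((α i - α j) * (α j - α i)) := by
    rw [h2]
    have h5 := Finset.prod_prod_Ioi_mul_eq_prod_prod_off_diag (fun j i => α i - α j)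
    rw [h5]
    exact Finset.prod_congr rfl fun i _ => h3 i
  have h5 : (∏ i : Fin (n + 1), ∏ j ∈ Finset.Ioi i, ((α i - α j) * (α j - α i))) =
      (∏ i : Fin (n + 1), ∏ j ∈ Finset.Ioi i, (-1 : R)) *
        (∏ i : Fin (n + 1), ∏ j ∈ Finset.Ioi i, (α i - α j)) ^ 2 := by
    rw [← Finset.prod_pow, ← Finset.prod_mul_distrib]
    refine Finset.prod_congr rfl fun i _ => ?_
    rw [← Finset.prod_pow, ← Finset.prod_mul_distrib]
    refine Finset.prod_congr rfl fun j _ => ?_
    ring
  have h6 : (∏ i : Fin (n + 1), ∏ j ∈ Finset.Ioi i, (-1 : R)) = 1 ∨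
      (∏ i : Fin (n + 1), ∏ j ∈ Finset.Ioi i, (-1 : R)) = -1 := by
    simp only [Finset.prod_const]
    rw [Finset.prod_pow_eq_pow_sum]
    exact neg_one_pow_eq_or R _
  refine ⟨∏ i, ∏ j ∈ Finset.Ioi i, (α i - α j), ?_⟩
  rw [← hp, h4, h5]
  rcases h6 with h | h
  · left; rw [h, one_mul]
  · right; rw [h]; ring

/-- the roots in a splitting field, as a family -/
lemma roots_fam {F N : Type} [Field F] [CharZero F] [Field N] [Algebra F N] (p : F[X]) (n : ℕ)
    (hm : p.Monic) (hd : p.natDegree = n) (hirr : Irreducible p)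
    (hs : (p.map (algebraMap F N)).Splits) :
    ∃ α : Fin n → N, Function.Injective α ∧ p.map (algebraMap F N) = ∏ i, (X - C (α i)) := by
  have hmon : (p.map (algebraMap F N)).Monic := hm.map _
  have hnd : (p.map (algebraMap F N)).roots.Nodup := nodup_roots (hirr.separable.map)
  obtain ⟨S, hS⟩ : ∃ S : Finset N, S = (p.map (algebraMap F N)).roots.toFinset := ⟨_, rfl⟩
  have hSv : S.val = (p.map (algebraMap F N)).roots := by
    rw [hS, Multiset.toFinset_val, Multiset.dedup_eq_self.2 hnd]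
  have hcard : S.card = n := by
    rw [Finset.card_def, hSv, ← hs.natDegree_eq_card_roots, natDegree_map, hd]
  let e : Fin n ≃ S := (S.equivFinOfCardEq hcard).symm
  refine ⟨fun k => (e k : N), fun a b h => e.injective (Subtype.ext h), ?_⟩
  have h1 := hs.eq_prod_roots_of_monic hmon
  rw [← hSv] at h1
  have h2 : (S.val.map (fun x => X - C x)).prod = ∏ a ∈ S, (X - C a) := rfl
  rw [h1, h2, ← Finset.prod_coe_sort S (fun a => (X - C a : N[X]))]
  exact (Equiv.prod_comp e (fun a : S => (X - C (a : N) : N[X]))).symm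

theorem t_SWP : S_PAIR → S_INR → S_SWP := by
  intro hPAIR hINR g F _ _ L _ f θ hg hG hirr hsq hnu
  obtain ⟨𝔭, h𝔭p, h𝔭b, h𝔭D⟩ := hnu
  have h𝔭2 : dsc g f ∉ 𝔭 ^ 2 := hsq 𝔭 h𝔭p h𝔭b
  have hsplit : ((fF f).map (algebraMap F (AlgebraicClosure F))).Splits :=
    IsAlgClosed.splits _
  obtain ⟨N, hN⟩ : ∃ N : IntermediateField F (AlgebraicClosure F),
    N = IntermediateField.adjoin F ((fF f).rootSet (AlgebraicClosure F)) := ⟨_, rfl⟩
  have hsf : (fF f).IsSplittingField F N := by
    rw [hN]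
    exact IntermediateField.adjoin_rootSet_isSplittingField hsplit
  have hnor : Normal F N := Normal.of_isSplittingField (fF f)
  have hfd : FiniteDimensional F N := IsSplittingField.finiteDimensional N (fF f)
  have hnf : NumberField N := NumberField.of_module_finite F N
  have hgal : IsGalois F N := {}
  have hmonF : (fF f).Monic := hG.mon.map _
  have hdegF : (fF f).natDegree = 2 * g + 1 := by
    rw [fF, hG.mon.natDegree_map, hG.deg]
  obtain ⟨α, hαi, hαp⟩ := roots_fam (N := N) (fF f) (2 * g + 1) hmonF hdegF hirr hsf.splits'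
  have hroot : ∀ z : N, aeval z (fF f) = 0 ↔ ∃ k, z = α k := by
    intro z
    rw [← eval_map_algebraMap, hαp, eval_prod, Finset.prod_eq_zero_iff]
    simp only [Finset.mem_univ, true_and, eval_sub, eval_X, eval_C, sub_eq_zero]
  -- integrality
  have hint : ∀ k, IsIntegral ℤ (α k) := by
    intro k
    have h1 : IsIntegral (𝓞 F) (α k) := by
      refine ⟨f, hG.mon, ?_⟩
      have h2 := (hroot (α k)).2 ⟨k, rfl⟩
      rw [fF, aeval_map_algebraMap] at h2
      exact h2
    have htow : IsScalarTower ℤ (𝓞 F) N := IsScalarTower.of_algebraMap_eq' (RingHom.ext_int _ _)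
    exact isIntegral_trans (R := ℤ) (A := 𝓞 F) (α k) h1
  obtain ⟨αO, hαO⟩ : ∃ αO : Fin (2 * g + 1) → 𝓞 N, ∀ k, ((αO k : 𝓞 N) : N) = α k :=
    ⟨fun k => ⟨α k, hint k⟩, fun k => rfl⟩
  have hinjO : Function.Injective (algebraMap (𝓞 N) N) := RingOfIntegers.coe_injective
  have hfO : f.map (algebraMap (𝓞 F) (𝓞 N)) = ∏ i, (X - C (αO i)) := by
    apply Polynomial.map_injective (algebraMap (𝓞 N) N) hinjO
    rw [Polynomial.map_map, Polynomial.map_prod]
    have e1 : (algebraMap (𝓞 N) N).comp (algebraMap (𝓞 F) (𝓞 N)) =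
        (algebraMap F N).comp (algebraMap (𝓞 F) F) := by
      ext x
      rfl
    rw [e1, ← Polynomial.map_map]
    have e2 : (f.map (algebraMap (𝓞 F) F)).map (algebraMap F N) = ∏ i, (X - C (α i)) := hαp
    rw [e2]
    refine Finset.prod_congr rfl fun i _ => ?_
    rw [Polynomial.map_sub, map_X, map_C]
    congr 2
    exact (hαO i).symm
  obtain ⟨x, hx⟩ := res_sq (2 * g) αO
  rw [← hfO, derivative_map, resultant_map_map] at hx
  -- the prime ideal
  have hker : RingHom.ker (algebraMap (𝓞 F) (𝓞 N)) ≤ 𝔭 := by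
    rw [(RingHom.injective_iff_ker_eq_bot _).1 (FaithfulSMul.algebraMap_injective (𝓞 F) (𝓞 N))]
    exact bot_le
  obtain ⟨𝔓, h𝔓p, h𝔓c⟩ :=
    Ideal.exists_ideal_over_prime_of_isIntegral_of_isDomain (S := 𝓞 N) 𝔭 hker
  obtain ⟨s, hs1, hs⟩ := hINR F N 𝔭 (dsc g f) x 𝔓 h𝔭p h𝔭b h𝔭D h𝔭2 hx h𝔓p h𝔓c
  -- the permutation of the roots
  have hperm : ∀ k, ∃ l, s (α k) = α l := by
    intro k
    rw [← hroot]
    have h1 := (hroot (α k)).2 ⟨k, rfl⟩
    have h2 : aeval (s (α k)) (fF f) = s (aeval (α k) (fF f)) :=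
      aeval_algHom_apply s.toAlgHom (α k) (fF f)
    rw [h2, h1, map_zero]
  choose π hπ using hperm
  have hπi : Function.Injective π := by
    intro a b hab
    apply hαi
    apply s.injective
    rw [hπ, hπ, hab]
  obtain ⟨i, hi⟩ : ∃ i, π i ≠ i := by
    by_contra hcon
    push Not at hcon
    apply hs1
    have h1 : s.toAlgHom = AlgHom.id F N := by
      apply AlgHom.ext_of_adjoin_eq_top hsf.adjoin_rootSet'
      intro z hz
      obtain ⟨k, rfl⟩ := (hroot z).1 (by
        rw [mem_rootSet'] at hz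
        exact hz.2)
      show s (α k) = α k
      rw [hπ, hcon]
    ext z
    exact congrArg (fun z => ((z : N) : AlgebraicClosure F)) (DFunLike.congr_fun h1 z)
  -- reduction modulo the prime
  have hdom : IsDomain (𝓞 N ⧸ 𝔓) := Ideal.Quotient.isDomain 𝔓
  obtain ⟨κ, hκ⟩ : ∃ κ : 𝓞 N →+* FractionRing (𝓞 N ⧸ 𝔓),
      ∀ a, κ a = 0 ↔ a ∈ 𝔓 := by
    refine ⟨(algebraMap (𝓞 N ⧸ 𝔓) (FractionRing (𝓞 N ⧸ 𝔓))).comp (Ideal.Quotient.mk 𝔓),
      fun a => ?_⟩
    rw [RingHom.comp_apply, map_eq_zero_iff _ (IsFractionRing.injective _ _),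
      Ideal.Quotient.eq_zero_iff_mem]
  have hρk : RingHom.ker (κ.comp (algebraMap (𝓞 F) (𝓞 N))) = 𝔭 := by
    ext a
    rw [RingHom.mem_ker, RingHom.comp_apply, hκ, ← h𝔓c, Ideal.mem_comap]
  have hρf : f.map (κ.comp (algebraMap (𝓞 F) (𝓞 N))) = ∏ k, (X - C (κ (αO k))) := by
    rw [← Polynomial.map_map, hfO, Polynomial.map_prod]
    refine Finset.prod_congr rfl fun k _ => ?_
    rw [Polynomial.map_sub, map_X, map_C]
  have hpair := hPAIR F (FractionRing (𝓞 N ⧸ 𝔓)) g 𝔭 f (κ.comp (algebraMap (𝓞 F) (𝓞 N)))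
    (fun k => κ (αO k)) hg h𝔭p h𝔭b hρk hG.mon hG.deg h𝔭2 hρf
  have hcong : ∀ k, κ (αO (π k)) = κ (αO k) := by
    intro k
    rw [← sub_eq_zero, ← map_sub, hκ]
    obtain ⟨z, hz, hz'⟩ := hs (αO k)
    have e : αO (π k) - αO k = z := by
      apply hinjO
      rw [map_sub]
      show ((αO (π k) : 𝓞 N) : N) - ((αO k : 𝓞 N) : N) = ((z : 𝓞 N) : N)
      rw [hz', hαO, hαO, hπ]
    rw [e]
    exact hz
  obtain ⟨j, hj⟩ : ∃ j, j = π i := ⟨_, rfl⟩
  have hij : i ≠ j := fun h => hi (by rw [← hj]; exact h.symm)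
  have hset : ∀ k, π k ≠ k → ({k, π k} : Finset (Fin (2 * g + 1))) = {i, j} := by
    intro k hk
    rw [hj]
    exact hpair k (π k) i (π i) hk.symm (hcong k).symm hi.symm (hcong i).symm
  have hπj : π j = i := by
    have h1 : π j ≠ j := by
      intro h
      apply hij
      apply hπi
      rw [h, hj]
    have h2 := hset j h1
    have h3 : π j ∈ ({i, j} : Finset (Fin (2 * g + 1))) := by
      rw [← h2]; simp
    rw [Finset.mem_insert, Finset.mem_singleton] at h3
    rcases h3 with h3 | h3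
    · exact h3
    · exact absurd h3 h1
  have hπk : ∀ k, k ≠ i → k ≠ j → π k = k := by
    intro k h1 h2
    by_contra h3
    have h4 := hset k h3
    have h5 : k ∈ ({i, j} : Finset (Fin (2 * g + 1))) := by
      rw [← h4]; simp
    rw [Finset.mem_insert, Finset.mem_singleton] at h5
    rcases h5 with h5 | h5
    · exact h1 h5
    · exact h2 h5
  -- the automorphism of the algebraic closure
  obtain ⟨σ, hσ⟩ : ∃ σ : AlgebraicClosure F ≃ₐ[F] AlgebraicClosure F,
      ∀ z : N, σ (z : AlgebraicClosure F) = ((s z : N) : AlgebraicClosure F) :=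
    ⟨s.liftNormal (AlgebraicClosure F), fun z => s.liftNormal_commutes (AlgebraicClosure F) z⟩
  -- embeddings
  have hext : ∀ χ χ' : L →ₐ[F] AlgebraicClosure F, χ θ = χ' θ → χ = χ' := by
    intro χ χ' h
    ext y
    obtain ⟨c, rfl⟩ := hG.gen y
    simp only [map_sum, map_mul, map_pow, h, AlgHom.commutes]
  have hval : ∀ χ : L →ₐ[F] AlgebraicClosure F, ∃ k, χ θ = ((α k : N) : AlgebraicClosure F) := by
    intro χ
    have h1 : aeval (χ θ) (fF f) = 0 := by
      rw [aeval_algHom_apply, hG.root, map_zero]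
    have h2 : (fF f).map (algebraMap F (AlgebraicClosure F)) =
        ∏ k, (X - C ((α k : N) : AlgebraicClosure F)) := by
      have e1 : algebraMap F (AlgebraicClosure F) =
          (algebraMap N (AlgebraicClosure F)).comp (algebraMap F N) := rfl
      rw [e1, ← Polynomial.map_map, hαp, Polynomial.map_prod]
      refine Finset.prod_congr rfl fun k _ => ?_
      rw [Polynomial.map_sub, map_X, map_C]
      rfl
    rw [← eval_map_algebraMap, h2, eval_prod, Finset.prod_eq_zero_iff] at h1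
    obtain ⟨k, -, hk⟩ := h1
    refine ⟨k, ?_⟩
    rw [eval_sub, eval_X, eval_C, sub_eq_zero] at hk
    exact hk
  have hemb : ∀ k, ∃ χ : L →ₐ[F] AlgebraicClosure F, χ θ = ((α k : N) : AlgebraicClosure F) := by
    intro k
    have hal : IsAlgebraic F (θ : AlgebraicClosure F) := Algebra.IsAlgebraic.isAlgebraic _
    have hr0 : aeval (θ : AlgebraicClosure F) (fF f) = 0 := by
      have h1 := congrArg L.val hG.root
      rw [map_zero, ← aeval_algHom_apply] at h1
      exact h1
    have hmp : minpoly F (θ : AlgebraicClosure F) = fF f :=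
      (minpoly.eq_of_irreducible_of_monic hirr hr0 hmonF).symm
    have hev : aeval ((α k : N) : AlgebraicClosure F) (minpoly F (θ : AlgebraicClosure F)) = 0 := by
      rw [hmp]
      have h1 := congrArg N.val ((hroot (α k)).2 ⟨k, rfl⟩)
      rw [map_zero, ← aeval_algHom_apply] at h1
      exact h1
    obtain ⟨τ, hτ⟩ := minpoly.exists_algEquiv_of_root' hal hev
    exact ⟨τ.toAlgHom.comp L.val, hτ⟩
  obtain ⟨φ, hφ⟩ := hemb i
  obtain ⟨ψ, hψ⟩ := hemb j
  have hαne : ∀ k l, ((α k : N) : AlgebraicClosure F) = ((α l : N) : AlgebraicClosure F) → k = l :=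
    fun k l h => hαi (Subtype.ext h)
  have hσα : ∀ k, σ ((α k : N) : AlgebraicClosure F) = ((α (π k) : N) : AlgebraicClosure F) := by
    intro k
    rw [hσ, hπ]
  refine ⟨σ, φ, ψ, ?_, ?_, ?_, ?_⟩
  · intro h
    apply hij
    apply hαne
    rw [← hφ, ← hψ, h]
  · apply hext
    show σ (φ θ) = ψ θ
    rw [hφ, hψ, hσα, ← hj]
  · apply hext
    show σ (ψ θ) = φ θ
    rw [hφ, hψ, hσα, hπj]
  · intro χ h1 h2
    obtain ⟨k, hk⟩ := hval χ
    have hki : k ≠ i := by
      rintro rfl
      exact h1 (hext _ _ (by rw [hk, hφ]))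
    have hkj : k ≠ j := by
      intro h
      rw [h] at hk
      exact h2 (hext _ _ (by rw [hk, hψ]))
    apply hext
    show σ (χ θ) = χ θ
    rw [hk, hσα, hπk k hki hkj]

end Pool.Agent.N693.CF
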